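import Mathlib

/-!
# MP_843a88_gt, Q1: answer YES

There is a compact space with a point that avoids measures but does not avoid ccc subspaces.
-/

open Set Filter Topology MeasureTheory

namespace Pool.Agent.Results.MP_843a88_gt.AvoidMeasures

universe u

section defs

variable {X : Type u} [TopologicalSpace X]

/-- The Radon property: inner regular with respect to compact sets and outer regular with respect
to open sets, on all Borel sets. -/
def IsRadon [MeasurableSpace X] (μ : Measure X) : Prop :=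
  ∀ B : Set X, MeasurableSet B →
    (μ B = ⨆ (K : Set X) (_ : K ⊆ B) (_ : IsCompact K), μ K) ∧
    (μ B = ⨅ (U : Set X) (_ : B ⊆ U) (_ : IsOpen U), μ U)

/-- The support of a measure: the intersection of all closed sets of measure one. -/
def supp [MeasurableSpace X] (μ : Measure X) : Set X := ⋂₀ {C | IsClosed C ∧ μ C = 1}

/-- `x` avoids measures: `x ∉ supp μ` for every Radon probability measure with `μ {x} = 0`. -/
def AvoidsMeasures [MeasurableSpace X] (x : X) : Prop :=
  ∀ μ : Measure X, IsProbabilityMeasure μ → IsRadon μ → μ {x} = 0 → x ∉ supp μ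

/-- ccc spaces -/
def IsCCC (Y : Type u) [TopologicalSpace Y] : Prop :=
  ∀ 𝒰 : Set (Set Y), (∀ U ∈ 𝒰, IsOpen U ∧ U.Nonempty) →
    (∀ U ∈ 𝒰, ∀ V ∈ 𝒰, U ≠ V → Disjoint U V) → 𝒰.Countable

/-- `x` avoids ccc spaces: no ccc subspace `Y` with `x ∉ Y` has `x` in its closure. -/
def AvoidsCCC (x : X) : Prop := ∀ Y : Set X, IsCCC Y → x ∉ Y → x ∉ closure Y

end defs

/-- the Baire space -/
abbrev R : Type := ℕ → ℕ

/-- sequences of finite sets with `|T N| = o(N)` -/
def Sm (T : ℕ → Finset R) : Prop := ∀ m : ℕ, ∃ N0, ∀ N ≥ N0, m * (T N).card ≤ N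

/-- the index set -/
abbrev Idx : Type := {T : ℕ → Finset R // Sm T} × ℕ

/-- an enumeration of the finite sequences, each occurring infinitely often -/
def sq (n : ℕ) : List ℕ := (Denumerable.ofNat (List ℕ × ℕ) n).1

theorem exists_sq (s : List ℕ) (m : ℕ) : ∃ n ≥ m, sq n = s := by
  have hinj : Function.Injective (fun k : ℕ => Encodable.encode ((s, k) : List ℕ × ℕ)) := by
    intro k l hkl
    have := Encodable.encode_injective hkl
    exact congrArg Prod.snd this
  obtain ⟨n, ⟨k, rfl⟩, hn⟩ := (Set.infinite_range_of_injective hinj).exists_gt m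
  refine ⟨_, hn.le, ?_⟩
  simp [sq, Denumerable.ofNat_encode]

/-- The cylinder `[s_n ⌢ j]`. -/
def I (n j : ℕ) : Set R :=
  {t | (∀ i (h : i < (sq n).length), t i = (sq n)[i]) ∧ t (sq n).length = j}

theorem I_disj {n j j' : ℕ} {t : R} (h : t ∈ I n j) (h' : t ∈ I n j') : j = j' :=
  h.2.symm.trans h'.2

/-- the indices of the cylinders met by `A` -/
def tr (A : Set R) (n : ℕ) : Set ℕ := {j | j < (n + 1) ^ 2 ∧ (A ∩ I n j).Nonempty}

theorem tr_finite (A : Set R) (n : ℕ) : (tr A n).Finite :=
  (Set.finite_lt_nat ((n + 1) ^ 2)).subset fun _ hj => hj.1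

theorem tr_mono {A B : Set R} (h : A ⊆ B) (n : ℕ) : tr A n ⊆ tr B n :=
  fun _ hj => ⟨hj.1, hj.2.mono (inter_subset_inter_left _ h)⟩

theorem tr_card (A : Finset R) (n : ℕ) : (tr (A : Set R) n).ncard ≤ A.card := by
  classical
  have h1 : tr (A : Set R) n ⊆ (fun t : R => t (sq n).length) '' (A : Set R) := by
    rintro j ⟨-, t, ht, htI⟩
    exact ⟨t, ht, htI.2⟩
  refine (Set.ncard_le_ncard h1 (A.finite_toSet.image _)).trans ?_
  refine (Set.ncard_image_le A.finite_toSet).trans ?_
  rw [Set.ncard_coe_finset]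

/-- the compact sets `K_N` -/
def K (N : ℕ) : Set (Set R) := {A | ∀ n ≥ N, (tr A n).ncard ≤ n + 1}

theorem K_mono {N : ℕ} {A B : Set R} (h : A ⊆ B) (hB : B ∈ K N) : A ∈ K N := fun n hn =>
  (Set.ncard_le_ncard (tr_mono h n) (tr_finite _ _)).trans (hB n hn)

theorem mem_K_of_card {N : ℕ} {A : Finset R} (h : A.card ≤ N + 1) : (A : Set R) ∈ K N :=
  fun n hn => (tr_card A n).trans (h.trans (by omega))

/-- the disjoint union of the `K_N` -/
abbrev Z : Type := {z : ℕ × Set R // z.2 ∈ K z.1}

open Classical in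
/-- the evaluation map -/
noncomputable def e (z : Z) : Idx → Bool := fun i =>
  decide (i.2 ≤ z.1.1 ∧ ((i.1.1 z.1.1 : Finset R) : Set R) ⊆ z.1.2)

theorem e_true {z : Z} {i : Idx} :
    e z i = true ↔ i.2 ≤ z.1.1 ∧ ((i.1.1 z.1.1 : Finset R) : Set R) ⊆ z.1.2 := by
  classical
  simp [e]

/-- The compact space `X`. -/
abbrev XX : Type := ↥(closure (range e))

instance : CompactSpace XX := isCompact_iff_compactSpace.1 isClosed_closure.isCompact

instance : MeasurableSpace XX := borel XX

instance : BorelSpace XX := ⟨rfl⟩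

/-- finite approximation of points of `X` by points of the image of `Z` -/
theorem approx (y : XX) (F : Finset Idx) : ∃ z : Z, ∀ i ∈ F, e z i = y.1 i := by
  have hO : IsOpen (⋂ i ∈ F, {w : Idx → Bool | w i = y.1 i}) := by
    refine isOpen_biInter_finset fun i _ => ?_
    exact IsOpen.preimage (f := fun w : Idx → Bool => w i) (continuous_apply i)
      (isOpen_discrete {y.1 i})
  obtain ⟨_, hw, ⟨z, rfl⟩⟩ := mem_closure_iff.1 y.2 _ hO (by simp)
  exact ⟨z, fun i hi => by simpa using mem_iInter₂.1 hw i hi⟩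

/-- the clopen sets of `X` -/
def cl (i : Idx) : Set XX := {y | y.1 i = true}

theorem isClopen_cl (i : Idx) : IsClopen (cl i) := by
  have h : cl i = (fun y : XX => y.1 i) ⁻¹' {true} := rfl
  rw [h]
  exact (isClopen_discrete {true}).preimage ((continuous_apply i).comp continuous_subtype_val)

theorem sm_empty : Sm (fun _ => ∅) := fun m => ⟨0, by simp⟩

theorem sm_single (t : ℕ → R) : Sm (fun N => {t N}) := fun m => ⟨m, fun N hN => by simpa using hN⟩

theorem sm_union [DecidableEq R] {T T' : ℕ → Finset R} (h : Sm T) (h' : Sm T') :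
    Sm (fun N => T N ∪ T' N) := by
  intro m
  obtain ⟨N, hN⟩ := h (2 * m)
  obtain ⟨N', hN'⟩ := h' (2 * m)
  refine ⟨max N N', fun n hn => ?_⟩
  have h1 := hN n (le_of_max_le_left hn)
  have h2 := hN' n (le_of_max_le_right hn)
  have h3 := Finset.card_union_le (T n) (T' n)
  nlinarith [Nat.mul_le_mul_left m h3]

/-- a common index -/
theorem common (F : Finset Idx) : ∃ (T : ℕ → Finset R) (m : ℕ), Sm T ∧
    ∀ i ∈ F, i.2 ≤ m ∧ ∀ N, i.1.1 N ⊆ T N := by
  classical
  induction F using Finset.induction_on with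
  | empty => exact ⟨fun _ => ∅, 0, sm_empty, by simp⟩
  | insert i F _ ih =>
    obtain ⟨T, m, hT, h⟩ := ih
    refine ⟨fun N => i.1.1 N ∪ T N, max i.2 m, sm_union i.1.2 hT, fun k hk => ?_⟩
    rcases Finset.mem_insert.1 hk with rfl | hk
    · exact ⟨le_max_left _ _, fun N => Finset.subset_union_left⟩
    · exact ⟨(h k hk).1.trans (le_max_right _ _),
        fun N => ((h k hk).2 N).trans Finset.subset_union_right⟩

/-- the point `x` -/
theorem one_mem : (fun _ => true : Idx → Bool) ∈ closure (range e) := by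
  classical
  rw [mem_closure_iff]
  intro O hO hx
  rw [isOpen_pi_iff] at hO
  obtain ⟨F, u, hu, hF⟩ := hO _ hx
  obtain ⟨T, m, hT, h⟩ := common F
  obtain ⟨N0, hN0⟩ := hT 1
  set N := max m N0 with hN
  have hcard : (T N).card ≤ N + 1 := by
    have := hN0 N (le_max_right _ _)
    omega
  let z : Z := ⟨(N, (T N : Set R)), mem_K_of_card hcard⟩
  refine ⟨e z, hF ?_, ⟨z, rfl⟩⟩
  intro i hi
  have h1 : e z i = true := by
    rw [e_true]
    exact ⟨(h i hi).1.trans (le_max_left _ _), by exact_mod_cast (h i hi).2 N⟩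
  rw [h1]
  exact (hu i hi).2

/-- the point `x` -/
def pt : XX := ⟨fun _ => true, one_mem⟩

/-- the subspace `Y` -/
def YY : Set XX := {y | ∃ z : Z, e z = y.1}

theorem pt_notMem : pt ∉ YY := by
  rintro ⟨z, hz⟩
  have h1 : e z (⟨fun _ => ∅, sm_empty⟩, z.1.1 + 1) = true := congrFun hz _
  rw [e_true] at h1
  have := h1.1
  simp only at this
  omega

theorem pt_mem_closure : pt ∈ closure YY := by
  rw [closure_subtype]
  have h : (Subtype.val '' YY : Set (Idx → Bool)) = range e := by
    ext w
    constructor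
    · rintro ⟨y, ⟨z, hz⟩, rfl⟩
      exact ⟨z, hz⟩
    · rintro ⟨z, rfl⟩
      exact ⟨⟨e z, subset_closure ⟨z, rfl⟩⟩, ⟨z, rfl⟩, rfl⟩
  rw [h]
  exact one_mem

/-- restriction of a finite set to length `l` -/
def rs (l : ℕ) (p : Finset R) : Set (Fin l → ℕ) := (fun t i => t i) '' (p : Set R)

/-- the subspace `Y` is ccc -/
theorem ccc_YY : IsCCC YY := by
  classical
  intro 𝒰 h𝒰 hdisj
  -- every nonempty open set contains a basic piece
  have hbase : ∀ U : 𝒰, ∃ (N : ℕ) (p q : Finset R), (p : Set R) ∈ K N ∧ Disjoint p q ∧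
      ∀ (A : Set R) (hA : A ∈ K N), (p : Set R) ⊆ A → Disjoint A (q : Set R) →
        ∃ y ∈ U.1, (y : YY).1.1 = e ⟨(N, A), hA⟩ := by
    rintro ⟨U, hU⟩
    obtain ⟨hUo, ⟨y, hy⟩⟩ := h𝒰 U hU
    obtain ⟨z, hz⟩ := y.2
    -- `U` is the trace of an open set of the cube
    obtain ⟨V, hV, rfl⟩ := isOpen_induced_iff.1 hUo
    obtain ⟨W, hW, rfl⟩ := isOpen_induced_iff.1 hV
    rw [isOpen_pi_iff] at hW
    obtain ⟨F, u, hu, hF⟩ := hW _ hy
    -- choose `p` and `q`
    have hpq : ∀ F : Finset Idx, ∃ p q : Finset R, (p : Set R) ⊆ z.1.2 ∧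
        Disjoint z.1.2 (q : Set R) ∧ ∀ (A : Set R) (hA : A ∈ K z.1.1), (p : Set R) ⊆ A →
          Disjoint A (q : Set R) → ∀ i ∈ F, e ⟨(z.1.1, A), hA⟩ i = e z i := by
      intro F
      induction F using Finset.induction_on with
      | empty => exact ⟨∅, ∅, by simp, by simp, by simp⟩
      | insert i F _ ih =>
        obtain ⟨p, q, hp, hq, h⟩ := ih
        by_cases hi : ((i.1.1 z.1.1 : Finset R) : Set R) ⊆ z.1.2
        · refine ⟨p ∪ i.1.1 z.1.1, q, ?_, hq, ?_⟩
          · rw [Finset.coe_union]
            exact union_subset hp hi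
          · intro A hA hpA hqA k hk
            rw [Finset.coe_union] at hpA
            rcases Finset.mem_insert.1 hk with rfl | hk
            · rw [Bool.eq_iff_iff, e_true, e_true]
              exact ⟨fun h' => ⟨h'.1, hi⟩, fun h' => ⟨h'.1, subset_union_right.trans hpA⟩⟩
            · exact h A hA (subset_union_left.trans hpA) hqA k hk
        · obtain ⟨a, ha, haz⟩ := Set.not_subset.1 hi
          refine ⟨p, insert a q, hp, ?_, ?_⟩
          · rw [Finset.coe_insert, Set.disjoint_insert_right]
            exact ⟨haz, hq⟩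
          · intro A hA hpA hqA k hk
            rw [Finset.coe_insert, Set.disjoint_insert_right] at hqA
            rcases Finset.mem_insert.1 hk with rfl | hk
            · rw [Bool.eq_iff_iff, e_true, e_true]
              exact ⟨fun h' => absurd (h'.2 ha) hqA.1, fun h' => absurd h'.2 hi⟩
            · exact h A hA hpA hqA.2 k hk
    obtain ⟨p, q, hp, hq, h⟩ := hpq F
    refine ⟨z.1.1, p, q, K_mono hp z.2, ?_, ?_⟩
    · rw [← Finset.disjoint_coe]
      exact hq.mono_left hp
    · intro A hA hpA hqA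
      refine ⟨⟨⟨e ⟨(z.1.1, A), hA⟩, subset_closure ⟨_, rfl⟩⟩, ⟨_, rfl⟩⟩, ?_, rfl⟩
      change e ⟨(z.1.1, A), hA⟩ ∈ W
      apply hF
      intro i hi
      rw [h A hA hpA hqA i hi, hz]
      exact (hu i hi).2
  choose N p q hpK hpq hU using hbase
  -- a separating level
  have hlev : ∀ U : 𝒰, ∃ l : ℕ, ∀ t ∈ p U, ∀ t' ∈ q U, ∃ i < l, t i ≠ t' i := by
    intro U
    have h1 : ∀ t ∈ p U, ∀ t' ∈ q U, ∃ i, t i ≠ t' i := by
      intro t ht t' ht'
      by_contra hno
      push Not at hno
      exact Finset.disjoint_left.1 (hpq U) ht (funext hno ▸ ht')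
    choose! f hf using h1
    refine ⟨(p U).sup (fun t => (q U).sup (fun t' => f t t')) + 1, fun t ht t' ht' => ?_⟩
    refine ⟨f t t', ?_, hf t ht t' ht'⟩
    have h2 : f t t' ≤ (q U).sup (fun t' => f t t') :=
      Finset.le_sup (f := fun t' => f t t') ht'
    have h3 : (q U).sup (fun t' => f t t') ≤ (p U).sup (fun t => (q U).sup (fun t' => f t t')) :=
      Finset.le_sup (f := fun t => (q U).sup (fun t' => f t t')) ht
    omega
  choose l hl using hlev
  -- codes
  let rsf : ∀ l : ℕ, Finset R → Finset (Fin l → ℕ) := fun l p => p.image (fun t i => t i)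
  let code : 𝒰 → ℕ × ℕ × (Σ l : ℕ, Finset (Fin l → ℕ) × Finset (Fin l → ℕ)) × Finset (ℕ × ℕ) :=
    fun U => (N U, (p U).card, ⟨l U, (rsf (l U) (p U), rsf (l U) (q U))⟩,
      ((Finset.range (2 * (p U).card)).biUnion fun n =>
        (tr_finite (p U : Set R) n).toFinset.image fun j => (n, j)))
  have hcode : Function.Injective code := by
    intro U V hUV
    by_contra hne
    have e1 : N U = N V := congrArg Prod.fst hUV
    have e2 : (p U).card = (p V).card := congrArg (fun c => c.2.1) hUV
    have e3 : (⟨l U, (rsf (l U) (p U), rsf (l U) (q U))⟩ :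
        Σ l : ℕ, Finset (Fin l → ℕ) × Finset (Fin l → ℕ)) =
        ⟨l V, (rsf (l V) (p V), rsf (l V) (q V))⟩ := congrArg (fun c => c.2.2.1) hUV
    have e4 := congrArg (fun c => c.2.2.2) hUV
    simp only [code] at e4
    -- `p U` and `q V` are disjoint
    have hd : ∀ U V : 𝒰, (⟨l U, (rsf (l U) (p U), rsf (l U) (q U))⟩ :
        Σ l : ℕ, Finset (Fin l → ℕ) × Finset (Fin l → ℕ)) =
        ⟨l V, (rsf (l V) (p V), rsf (l V) (q V))⟩ → ∀ t ∈ p U, t ∉ q V := by
      intro U V hE t htp htq
      have hl' : l U = l V := congrArg Sigma.fst hE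
      have hq' : rsf (l U) (q U) = rsf (l U) (q V) := by
        have h5 : HEq (rsf (l U) (p U), rsf (l U) (q U)) (rsf (l V) (p V), rsf (l V) (q V)) :=
          (Sigma.mk.inj_iff.1 hE).2
        rw [← hl'] at h5
        exact congrArg Prod.snd (eq_of_heq h5)
      have h6 : (fun i : Fin (l U) => t i) ∈ rsf (l U) (q V) := Finset.mem_image.2 ⟨t, htq, rfl⟩
      rw [← hq'] at h6
      obtain ⟨t', ht', heq⟩ := Finset.mem_image.1 h6
      obtain ⟨i, hi, hne⟩ := hl U t htp t' ht'
      exact hne (congrFun heq ⟨i, hi⟩).symm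
    have hUV1 := hd U V e3
    have hVU1 := hd V U e3.symm
    -- the union belongs to `K N`
    have htr : ∀ n, n < 2 * (p U).card → tr (p U : Set R) n = tr (p V : Set R) n := by
      intro n hn
      ext j
      have h7 : (n, j) ∈ ((Finset.range (2 * (p U).card)).biUnion fun n =>
          (tr_finite (p U : Set R) n).toFinset.image fun j => (n, j)) ↔ j ∈ tr (p U : Set R) n := by
        simp only [Finset.mem_biUnion, Finset.mem_range, Finset.mem_image,
          Set.Finite.mem_toFinset, Prod.mk.injEq]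
        constructor
        · rintro ⟨n', -, j', hj', rfl, rfl⟩
          exact hj'
        · intro h
          exact ⟨n, hn, j, h, rfl, rfl⟩
      have h8 : (n, j) ∈ ((Finset.range (2 * (p V).card)).biUnion fun n =>
          (tr_finite (p V : Set R) n).toFinset.image fun j => (n, j)) ↔ j ∈ tr (p V : Set R) n := by
        simp only [Finset.mem_biUnion, Finset.mem_range, Finset.mem_image,
          Set.Finite.mem_toFinset, Prod.mk.injEq]
        constructor
        · rintro ⟨n', -, j', hj', rfl, rfl⟩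
          exact hj'
        · intro h
          exact ⟨n, e2 ▸ hn, j, h, rfl, rfl⟩
      rw [← h7, ← h8, e4]
    have hK : ((p U ∪ p V : Finset R) : Set R) ∈ K (N U) := by
      intro n hn
      by_cases hn2 : n < 2 * (p U).card
      · have h9 : tr ((p U ∪ p V : Finset R) : Set R) n = tr (p U : Set R) n := by
          apply Subset.antisymm
          · rintro j ⟨hj, t, ht, htI⟩
            rw [Finset.coe_union] at ht
            rcases ht with ht | ht
            · exact ⟨hj, t, ht, htI⟩
            · rw [htr n hn2]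
              exact ⟨hj, t, ht, htI⟩
          · exact tr_mono (by simp) n
        rw [h9]
        exact hpK U n hn
      · refine (tr_card _ n).trans ?_
        have := Finset.card_union_le (p U) (p V)
        omega
    have hK' : ((p U ∪ p V : Finset R) : Set R) ∈ K (N V) := e1 ▸ hK
    have hdq : ∀ (W : 𝒰), (∀ t ∈ p U, t ∉ q W) → (∀ t ∈ p V, t ∉ q W) →
        Disjoint ((p U ∪ p V : Finset R) : Set R) (q W : Set R) := by
      intro W h1 h2
      rw [Finset.disjoint_coe, Finset.disjoint_left]
      intro t ht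
      rcases Finset.mem_union.1 ht with ht | ht
      · exact h1 t ht
      · exact h2 t ht
    have hself : ∀ W : 𝒰, ∀ t ∈ p W, t ∉ q W := fun W => Finset.disjoint_left.1 (hpq W)
    obtain ⟨y, hyU, hy⟩ := hU U _ hK (by simp) (hdq U (hself U) hVU1)
    obtain ⟨y', hyV, hy'⟩ := hU V _ hK' (by simp) (hdq V hUV1 (hself V))
    have hyy : y = y' := by
      apply Subtype.ext
      apply Subtype.ext
      rw [hy, hy']
      congr 1
      apply Subtype.ext
      simp only [e1]
    have := hdisj U.1 U.2 V.1 V.2 (fun h => hne (Subtype.ext h))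
    exact Set.disjoint_left.1 this hyU (hyy ▸ hyV)
  have hcount : Countable 𝒰 := hcode.countable
  exact hcount.to_set

/-! ### Measures -/

/-- the index `(∅, N)` -/
def em (N : ℕ) : Idx := (⟨fun _ => ∅, sm_empty⟩, N)

/-- the index `({t}, 0)` -/
def sg (t : R) : Idx := (⟨fun _ => {t}, sm_single fun _ => t⟩, 0)

/-- the part of `X` over `N` -/
def lev (N : ℕ) : Set XX := cl (em N) \ cl (em (N + 1))

/-- the part at infinity -/
def Xinf : Set XX := ⋂ N, cl (em N)

theorem e_em {z : Z} {N : ℕ} : e z (em N) = true ↔ N ≤ z.1.1 := by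
  rw [e_true]
  simp [em]

theorem e_sg {z : Z} {t : R} : e z (sg t) = true ↔ t ∈ z.1.2 := by
  rw [e_true]
  simp [sg]

theorem cover (y : XX) : y ∈ Xinf ∨ ∃ N, y ∈ lev N := by
  classical
  by_cases h : y ∈ Xinf
  · exact Or.inl h
  · right
    have hex : ∃ N, y ∉ cl (em N) := by
      by_contra hno
      push Not at hno
      exact h (mem_iInter.2 hno)
    have h1 := Nat.find_spec hex
    have h2 : Nat.find hex ≠ 0 := by
      intro h0
      rw [h0] at h1
      obtain ⟨z, hz⟩ := approx y {em 0}
      apply h1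
      have h3 := hz (em 0) (by simp)
      change y.1 (em 0) = true
      rw [← h3, e_em]
      exact Nat.zero_le _
    obtain ⟨M, hM⟩ := Nat.exists_eq_succ_of_ne_zero h2
    refine ⟨M, ?_, ?_⟩
    · by_contra hM'
      exact Nat.find_min hex (by omega) hM'
    · rw [hM] at h1
      exact h1

theorem lev_approx {N : ℕ} {y : XX} (hy : y ∈ lev N) (F : Finset Idx) :
    ∃ z : Z, z.1.1 = N ∧ ∀ i ∈ F, e z i = y.1 i := by
  classical
  obtain ⟨z, hz⟩ := approx y (insert (em N) (insert (em (N + 1)) F))
  refine ⟨z, ?_, fun i hi => hz i (by simp [hi])⟩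
  have h1 : e z (em N) = true := (hz _ (by simp)).trans hy.1
  have h2 : ¬ e z (em (N + 1)) = true := by
    rw [hz _ (by simp)]
    exact hy.2
  rw [e_em] at h1 h2
  omega

theorem count {N n : ℕ} (hn : N ≤ n) {t : ℕ → R} (ht : ∀ j < (n + 1) ^ 2, t j ∈ I n j)
    [DecidableEq Idx] {y : XX} (hy : y ∈ lev N) :
    {j | j < (n + 1) ^ 2 ∧ y ∈ cl (sg (t j))}.ncard ≤ n + 1 := by
  classical
  obtain ⟨z, hzN, hz⟩ := lev_approx hy ((Finset.range ((n + 1) ^ 2)).image fun j => sg (t j))
  have h1 : {j | j < (n + 1) ^ 2 ∧ y ∈ cl (sg (t j))} ⊆ tr z.1.2 n := by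
    rintro j ⟨hj, hjy⟩
    refine ⟨hj, t j, ?_, ht j hj⟩
    rw [← e_sg, hz (sg (t j)) (Finset.mem_image.2 ⟨j, Finset.mem_range.2 hj, rfl⟩)]
    exact hjy
  exact (Set.ncard_le_ncard h1 (tr_finite _ _)).trans (z.2 n (by rw [hzN]; exact hn))

theorem measurable_lev (N : ℕ) : MeasurableSet (lev N) :=
  (isClopen_cl _).isClosed.measurableSet.diff (isClopen_cl _).isClosed.measurableSet

/-- some `a_t` is null -/
theorem exists_null (μ : Measure XX) [IsProbabilityMeasure μ] (N : ℕ) :
    ∃ t : R, μ (lev N ∩ cl (sg t)) = 0 := by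
  classical
  by_contra hno
  push Not at hno
  have hcov : (⋃ m : ℕ, closure {t : R | ((m : ENNReal))⁻¹ < μ (lev N ∩ cl (sg t))}) = univ := by
    rw [eq_univ_iff_forall]
    intro t
    obtain ⟨m, hm⟩ := ENNReal.exists_inv_nat_lt (hno t)
    exact mem_iUnion.2 ⟨m, subset_closure hm⟩
  obtain ⟨m, x, hx⟩ := nonempty_interior_of_iUnion_of_closed (fun m => isClosed_closure) hcov
  obtain ⟨F, u, hu, hF⟩ := isOpen_pi_iff.1 isOpen_interior x hx
  -- a cylinder
  obtain ⟨L, hL⟩ : ∃ L, ∀ i ∈ F, i < L := ⟨F.sup id + 1, fun i hi =>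
    Nat.lt_succ_of_le (Finset.le_sup (f := id) hi)⟩
  obtain ⟨n, hn, hsq⟩ := exists_sq (List.ofFn fun i : Fin L => x i) (max N m)
  have hlen : (sq n).length = L := by rw [hsq, List.length_ofFn]
  have ht : ∀ j : ℕ, ∃ t : R, t ∈ I n j ∧ ((m : ENNReal))⁻¹ < μ (lev N ∩ cl (sg t)) := by
    intro j
    have hopen : IsOpen (I n j) := by
      have : I n j = (⋂ i, ⋂ (h : i < (sq n).length), {t : R | t i = (sq n)[i]}) ∩
          {t : R | t (sq n).length = j} := by
        ext t
        simp [I]
      rw [this]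
      refine IsOpen.inter ?_ ?_
      · have h2 : (⋂ i, ⋂ (h : i < (sq n).length), {t : R | t i = (sq n)[i]}) =
            ⋂ i : Fin (sq n).length, {t : R | t i = (sq n)[(i : ℕ)]} := by
          ext t
          simp only [mem_iInter, mem_ofPred_eq]
          exact ⟨fun h i => h i i.2, fun h i hi => h ⟨i, hi⟩⟩
        rw [h2]
        refine isOpen_iInter_of_finite fun i => ?_
        exact IsOpen.preimage (f := fun t : R => t i) (continuous_apply (i : ℕ))
          (isOpen_discrete {(sq n)[(i : ℕ)]})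
      · exact IsOpen.preimage (f := fun t : R => t (sq n).length)
          (continuous_apply (sq n).length) (isOpen_discrete {j})
    let w : R := fun i => if i = L then j else x i
    have hw : w ∈ I n j := by
      refine ⟨fun i hi => ?_, ?_⟩
      · have hiL : i < L := by rw [← hlen]; exact hi
        have h3 : (sq n)[i] = x i := by
          simp only [hsq, List.getElem_ofFn]
        rw [h3]
        simp only [w]
        rw [if_neg hiL.ne]
      · simp only [w, hlen, if_true]
    have hwc : w ∈ closure {t : R | ((m : ENNReal))⁻¹ < μ (lev N ∩ cl (sg t))} := by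
      apply interior_subset
      apply hF
      intro i hi
      have : w i = x i := by
        simp only [w]
        rw [if_neg (hL i hi).ne]
      rw [this]
      exact (hu i hi).2
    obtain ⟨t, htI, htm⟩ := mem_closure_iff.1 hwc (I n j) hopen hw
    exact ⟨t, htI, htm⟩
  choose t htI htm using ht
  have hNn : N ≤ n := (le_max_left _ _).trans hn
  have hmn : m ≤ n := (le_max_right _ _).trans hn
  -- the sum
  have hmeas : ∀ j, MeasurableSet (lev N ∩ cl (sg (t j))) := fun j =>
    (measurable_lev N).inter (isClopen_cl _).isClosed.measurableSet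
  have hsum : ∑ j ∈ Finset.range ((n + 1) ^ 2), μ (lev N ∩ cl (sg (t j))) ≤
      ((n + 1 : ℕ) : ENNReal) := by
    have h1 : ∑ j ∈ Finset.range ((n + 1) ^ 2), μ (lev N ∩ cl (sg (t j))) =
        ∫⁻ y, ∑ j ∈ Finset.range ((n + 1) ^ 2),
          (lev N ∩ cl (sg (t j))).indicator (fun _ => (1 : ENNReal)) y ∂μ := by
      rw [lintegral_finsetSum]
      · refine Finset.sum_congr rfl fun j _ => ?_
        rw [lintegral_indicator (hmeas j)]
        simp
      · intro j _
        exact measurable_const.indicator (hmeas j)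
    rw [h1]
    calc _ ≤ ∫⁻ _, ((n + 1 : ℕ) : ENNReal) ∂μ := by
          refine lintegral_mono fun y => ?_
          by_cases hy : y ∈ lev N
          · have h2 : ∀ j, (lev N ∩ cl (sg (t j))).indicator (fun _ => (1 : ENNReal)) y =
                if y ∈ cl (sg (t j)) then 1 else 0 := by
              intro j
              by_cases hj : y ∈ cl (sg (t j))
              · rw [indicator_of_mem (show y ∈ lev N ∩ cl (sg (t j)) from ⟨hy, hj⟩), if_pos hj]
              · rw [indicator_of_notMem (fun h => hj h.2), if_neg hj]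
            simp only [h2]
            rw [Finset.sum_ite, Finset.sum_const_zero, add_zero, Finset.sum_const, nsmul_eq_mul,
              mul_one]
            have h3 := count hNn (t := t) (fun j _ => htI j) hy
            have h4 : {j | j < (n + 1) ^ 2 ∧ y ∈ cl (sg (t j))} =
                (((Finset.range ((n + 1) ^ 2)).filter fun j => y ∈ cl (sg (t j)) : Finset ℕ) :
                  Set ℕ) := by
              ext j
              simp
            rw [h4, Set.ncard_coe_finset] at h3
            exact_mod_cast h3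
          · have h2 : ∀ j, (lev N ∩ cl (sg (t j))).indicator (fun _ => (1 : ENNReal)) y = 0 :=
              fun j => indicator_of_notMem (fun h => hy h.1) _
            simp [h2]
      _ = ((n + 1 : ℕ) : ENNReal) := by simp
  have hm0 : m ≠ 0 := by
    rintro rfl
    have := htm 0
    simp at this
  have hlow : (((n + 1) ^ 2 : ℕ) : ENNReal) * ((m : ENNReal))⁻¹ ≤ ((n + 1 : ℕ) : ENNReal) := by
    refine le_trans ?_ hsum
    calc (((n + 1) ^ 2 : ℕ) : ENNReal) * ((m : ENNReal))⁻¹ =
          ∑ _j ∈ Finset.range ((n + 1) ^ 2), ((m : ENNReal))⁻¹ := by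
          rw [Finset.sum_const, Finset.card_range, nsmul_eq_mul]
      _ ≤ _ := Finset.sum_le_sum fun j _ => (htm j).le
  have h5 : (((n + 1) ^ 2 : ℕ) : ENNReal) ≤ ((n + 1 : ℕ) : ENNReal) * (m : ENNReal) := by
    have h6 := mul_le_mul_left hlow (m : ENNReal)
    rw [mul_assoc, ENNReal.inv_mul_cancel (by exact_mod_cast hm0) (ENNReal.natCast_ne_top _),
      mul_one] at h6
    exact h6
  have h7 : (n + 1) ^ 2 ≤ (n + 1) * m := by exact_mod_cast h5
  have h8 : n + 1 ≤ m := by
    rw [pow_two] at h7
    exact Nat.le_of_mul_le_mul_left h7 (Nat.succ_pos n)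
  omega

/-- diagonalization -/
theorem diag (T : ℕ → ℕ → Finset R) (hT : ∀ i, Sm (T i)) :
    ∃ S : ℕ → Finset R, Sm S ∧ ∀ i, ∃ M, ∀ N ≥ M, T i N ⊆ S N := by
  classical
  -- partial unions
  let U : ℕ → ℕ → Finset R := fun i N => (Finset.range (i + 1)).biUnion fun j => T j N
  have hU : ∀ i, Sm (U i) := by
    intro i
    induction i with
    | zero =>
      have : U 0 = T 0 := by
        funext N
        simp [U]
      rw [this]
      exact hT 0
    | succ i ih =>
      have : U (i + 1) = fun N => U i N ∪ T (i + 1) N := by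
        funext N
        simp only [U]
        rw [Finset.range_add_one, Finset.biUnion_insert, Finset.union_comm]
      rw [this]
      exact sm_union ih (hT (i + 1))
  choose a ha using fun i => hU i i
  let M : ℕ → ℕ := fun i => i + ∑ j ∈ Finset.range (i + 1), a j
  have hMmono : Monotone M := by
    refine monotone_nat_of_le_succ fun i => ?_
    simp only [M]
    rw [Finset.sum_range_succ _ (i + 1)]
    omega
  have hMi : ∀ i, i ≤ M i := fun i => by simp only [M]; omega
  have hMa : ∀ i, a i ≤ M i := fun i => by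
    have : a i ≤ ∑ j ∈ Finset.range (i + 1), a j :=
      Finset.single_le_sum (f := a) (fun _ _ => Nat.zero_le _) (Finset.self_mem_range_succ i)
    simp only [M]
    omega
  let q : ℕ → ℕ := fun N => Nat.findGreatest (fun i => M i ≤ N) N
  have hq : ∀ N, M 0 ≤ N → M (q N) ≤ N := fun N hN =>
    Nat.findGreatest_spec (P := fun i => M i ≤ N) (Nat.zero_le N) hN
  refine ⟨fun N => U (q N) N, ?_, ?_⟩
  · intro m
    refine ⟨M m, fun N hN => ?_⟩
    have h1 : m ≤ q N := Nat.le_findGreatest ((hMi m).trans hN) hN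
    have h2 := ha (q N) N ((hMa _).trans (hq N ((hMmono (Nat.zero_le m)).trans hN)))
    exact (Nat.mul_le_mul_right _ h1).trans h2
  · intro i
    refine ⟨M i, fun N hN => ?_⟩
    have h1 : i ≤ q N := Nat.le_findGreatest ((hMi i).trans hN) hN
    intro x hx
    exact Finset.mem_biUnion.2 ⟨i, Finset.mem_range.2 (by omega), hx⟩

theorem avoidsMeasures : AvoidsMeasures pt := by
  classical
  intro μ hμ hrad hpt hsupp
  -- small basic neighbourhoods
  have hsmall : ∀ i : ℕ, ∃ k : Idx, μ (cl k) ≤ ((i + 1 : ℕ) : ENNReal)⁻¹ := by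
    intro i
    have h1 := (hrad {pt} (measurableSet_singleton pt)).2
    rw [hpt] at h1
    have hpos : (0 : ENNReal) < ((i + 1 : ℕ) : ENNReal)⁻¹ :=
      ENNReal.inv_pos.2 (ENNReal.natCast_ne_top _)
    rw [h1] at hpos
    simp only [iInf_lt_iff] at hpos
    obtain ⟨U, hU1, hU2, hU3⟩ := hpos
    obtain ⟨W, hW, rfl⟩ := isOpen_induced_iff.1 hU2
    have hmem : (fun _ => true : Idx → Bool) ∈ W := hU1 rfl
    obtain ⟨F, u, hu, hF⟩ := isOpen_pi_iff.1 hW _ hmem
    obtain ⟨T, m, hT, h⟩ := common F
    refine ⟨(⟨T, hT⟩, m), le_trans (measure_mono ?_) hU3.le⟩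
    intro y hy
    change y.1 ∈ W
    apply hF
    intro k hk
    obtain ⟨z, hz⟩ := approx y (insert (⟨T, hT⟩, m) F)
    have h2 : e z (⟨T, hT⟩, m) = true := (hz _ (by simp)).trans hy
    have h3 : e z k = true := by
      rw [e_true] at h2 ⊢
      refine ⟨(h k hk).1.trans h2.1, ?_⟩
      have h4 : ((k.1.1 z.1.1 : Finset R) : Set R) ⊆ ((T z.1.1 : Finset R) : Set R) := by
        exact_mod_cast (h k hk).2 z.1.1
      exact h4.trans h2.2
    rw [← hz k (by simp [Finset.mem_coe.1 hk]), h3]
    exact (hu k hk).2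
  choose k hk using hsmall
  obtain ⟨S, hS, hTS⟩ := diag (fun i => (k i).1.1) (fun i => (k i).1.2)
  choose t ht using fun N => exists_null μ N
  have hS' : Sm (fun N => S N ∪ {t N}) := sm_union hS (sm_single t)
  set s : Idx := (⟨fun N => S N ∪ {t N}, hS'⟩, 0) with hs
  have hnull : μ (cl s) = 0 := by
    have hcov : cl s ⊆ (Xinf ∩ cl s) ∪ ⋃ N, (lev N ∩ cl (sg (t N))) := by
      intro y hy
      rcases cover y with h | ⟨N, hN⟩
      · exact Or.inl ⟨h, hy⟩
      · right
        refine mem_iUnion.2 ⟨N, hN, ?_⟩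
        obtain ⟨z, hzN, hz⟩ := lev_approx hN {s, sg (t N)}
        have h1 : e z s = true := (hz _ (by simp)).trans hy
        have h2 : e z (sg (t N)) = true := by
          rw [e_true] at h1
          rw [e_sg]
          apply h1.2
          rw [hzN]
          simp [hs]
        exact (hz (sg (t N)) (by simp)).symm.trans h2
    have h1 : μ (⋃ N, (lev N ∩ cl (sg (t N)))) = 0 := measure_iUnion_null ht
    have h2 : μ (Xinf ∩ cl s) = 0 := by
      have hle : ∀ i : ℕ, μ (Xinf ∩ cl s) ≤ ((i + 1 : ℕ) : ENNReal)⁻¹ := by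
        intro i
        refine le_trans (measure_mono ?_) (hk i)
        rintro y ⟨hy1, hy2⟩
        obtain ⟨M, hM⟩ := hTS i
        obtain ⟨z, hz⟩ := approx y {em (max M (k i).2), s, k i}
        have h3 : e z (em (max M (k i).2)) = true :=
          (hz _ (by simp)).trans (mem_iInter.1 hy1 _)
        have h4 : e z s = true := (hz _ (by simp)).trans hy2
        rw [e_em] at h3
        rw [e_true] at h4
        have h5 : e z (k i) = true := by
          rw [e_true]
          refine ⟨(le_max_right _ _).trans h3, ?_⟩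
          refine Subset.trans ?_ h4.2
          have h6 : (k i).1.1 z.1.1 ⊆ S z.1.1 ∪ {t z.1.1} :=
            (hM z.1.1 ((le_max_left _ _).trans h3)).trans Finset.subset_union_left
          exact_mod_cast h6
        exact (hz (k i) (by simp)).symm.trans h5
      have hlim : Tendsto (fun i : ℕ => ((i + 1 : ℕ) : ENNReal)⁻¹) atTop (𝓝 0) :=
        ENNReal.tendsto_inv_nat_nhds_zero.comp (tendsto_add_atTop_nat 1)
      exact le_antisymm (ge_of_tendsto' hlim hle) bot_le
    exact measure_mono_null hcov (measure_union_null h2 h1)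
  have hC : (cl s)ᶜ ∈ {C : Set XX | IsClosed C ∧ μ C = 1} := by
    refine ⟨(isClopen_cl s).compl.isClosed, ?_⟩
    rw [prob_compl_eq_one_iff (isClopen_cl s).isClosed.measurableSet]
    exact hnull
  exact hsupp _ hC rfl

/-- **Positive answer to Q1.**  There are a compact Hausdorff space `X` and a point `x ∈ X` that
avoids measures but does not avoid ccc spaces. -/
theorem result : ∃ (X : Type) (_ : TopologicalSpace X) (_ : CompactSpace X) (_ : T2Space X)
    (_ : MeasurableSpace X) (_ : BorelSpace X) (x : X), AvoidsMeasures x ∧ ¬ AvoidsCCC x :=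
  ⟨XX, inferInstance, inferInstance, inferInstance, inferInstance, inferInstance, pt,
    avoidsMeasures, fun h => h YY ccc_YY pt_notMem pt_mem_closure⟩

end Pool.Agent.Results.MP_843a88_gt.AvoidMeasures
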